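import Pool.Agent.TH983.Fin
import Pool.Agent.Helper764.Cop_fe

/-!
# Copolymer at a selective interface: the slope at the origin exceeds `2/3` when `α = 1/2`

The slope is bounded below by some `m > 0.6976`, and `m` is strictly above every level `k` that
passes the integral criterion at `α = 1/2`.
-/

set_option autoImplicit false
open MeasureTheory ProbabilityTheory Filter Topology

namespace Pool.Agent.Results.MP_c26281_pr.AboveTwoThirds

/-- law of one (gap, sign) pair: gap with law `κ`, sign uniform on `{false, true}` -/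
noncomputable def stepLaw (κ : PMF ℕ) : Measure (ℕ × Bool) :=
  κ.toMeasure.prod (PMF.uniformOfFintype Bool).toMeasure

instance instStepLaw (κ : PMF ℕ) : IsProbabilityMeasure (stepLaw κ) := by
  unfold stepLaw; infer_instance

/-- law of the i.i.d. sequence of (gap, sign) pairs -/
noncomputable def pathMeasure (κ : PMF ℕ) : Measure (ℕ → ℕ × Bool) :=
  Measure.infinitePi (fun _ : ℕ => stepLaw κ)

instance instPathMeasure (κ : PMF ℕ) : IsProbabilityMeasure (pathMeasure κ) := by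
  unfold pathMeasure; infer_instance

/-- renewal points `τ_0 = 0`, `τ_j` = sum of the first `j` gaps -/
def tau (x : ℕ → ℕ × Bool) (j : ℕ) : ℕ := ∑ i ∈ Finset.range j, (x i).1

/-- `Δ_n` = sign of the excursion `(τ_j, τ_{j+1}]` containing `n` (as a real number 0 or 1) -/
noncomputable def Delta (x : ℕ → ℕ × Bool) (n : ℕ) : ℝ :=
  ∑ j ∈ Finset.range n, if tau x j < n ∧ n ≤ tau x (j + 1) ∧ (x j).2 = true then 1 else 0

/-- the copolymer partition function `Z_{N,ω,λ,h}` -/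
noncomputable def Z (κ : PMF ℕ) (lam h : ℝ) (N : ℕ) (ω : ℕ → ℝ) : ℝ :=
  ∫ x, Real.exp (-2 * lam * ∑ n ∈ Finset.Icc 1 N, Delta x n * (ω n + h)) ∂(pathMeasure κ)

/-- i.i.d. disorder with law `ν` (the coordinates `1, 2, ...` are used) -/
noncomputable def disorder (ν : Measure ℝ) [IsProbabilityMeasure ν] : Measure (ℕ → ℝ) :=
  Measure.infinitePi (fun _ : ℕ => ν)

instance instDisorder (ν : Measure ℝ) [IsProbabilityMeasure ν] :
    IsProbabilityMeasure (disorder ν) := by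
  unfold disorder; infer_instance

/-- `N⁻¹ E log Z_N` -/
noncomputable def feN (κ : PMF ℕ) (ν : Measure ℝ) [IsProbabilityMeasure ν] (lam h : ℝ) (N : ℕ) : ℝ :=
  (N : ℝ)⁻¹ * ∫ ω, Real.log (Z κ lam h N ω) ∂(disorder ν)

/-- the free energy `f(λ,h)` -/
noncomputable def freeEnergy (κ : PMF ℕ) (ν : Measure ℝ) [IsProbabilityMeasure ν] (lam h : ℝ) : ℝ :=
  limUnder atTop (feN κ ν lam h)

/-- the critical curve `h_c(λ) = sup {h : f(λ,h) > 0}`, supremum over all real `h` -/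
noncomputable def hc (κ : PMF ℕ) (ν : Measure ℝ) [IsProbabilityMeasure ν] (lam : ℝ) : ℝ :=
  sSup {h : ℝ | 0 < freeEnergy κ ν lam h}

/-- Gaussian mean of the power `1/(1+α)` of `(1+e^g)/2`, where `g` has mean `-2ky`, variance `4y` -/
noncomputable def gaussMean (α k y : ℝ) : ℝ :=
  ∫ z, ((1 + Real.exp (-2 * k * y + 2 * √y * z)) / 2) ^ (1 + α)⁻¹ ∂(gaussianReal 0 1)

/-- the integral criterion -/
noncomputable def crit (α k : ℝ) : ℝ :=
  ∫ y in Set.Ioi (0 : ℝ), y ^ (-(1 + α)) * (gaussMean α k y ^ (1 + α) - 1)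

/-- **The critical slope for `α = 1/2`.**  The limits defining the free energy exist, the localized
region at `λ > 0` is `{h < h_c(λ)}` (for `h ≥ 0`), and for `α = 1/2` there is `m > 0.6976` with
`h_c(λ)/λ ≥ m` for all small `λ > 0`; moreover `m` exceeds every `k ≥ 2/3` at which the (absolutely
convergent) integral criterion is nonnegative.  Hence the slope is larger than `2/3`. -/
theorem result (κ : PMF ℕ) (hκ0 : κ 0 = 0) (α cK : ℝ) (hα : 0 < α) (hcK : 0 < cK)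
    (htail : Tendsto (fun n : ℕ => (n : ℝ) ^ (1 + α) * (κ n).toReal) atTop (𝓝 cK))
    (ν : Measure ℝ) [IsProbabilityMeasure ν]
    (hmean : ∫ x, x ∂ν = 0) (hvar : ∫ x, x ^ 2 ∂ν = 1)
    (hexp : ∀ t : ℝ, Integrable (fun x => Real.exp (t * x)) ν) :
    α = 1 / 2 →
    (∀ lam, 0 < lam →
      (∀ h, 0 ≤ h → Tendsto (feN κ ν lam h) atTop (𝓝 (freeEnergy κ ν lam h))) ∧
      0 < hc κ ν lam ∧ ∀ h, 0 ≤ h → (0 < freeEnergy κ ν lam h ↔ h < hc κ ν lam)) ∧
    (∃ m : ℝ, 6976 / 10000 < m ∧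
      (∀ k, 2 / 3 ≤ k →
        IntegrableOn (fun y => y ^ (-(1 + α)) * (gaussMean α k y ^ (1 + α) - 1)) (Set.Ioi 0) ∧
        (0 ≤ crit α k → k < m)) ∧
      ∀ᶠ lam in 𝓝[>] (0 : ℝ), m ≤ hc κ ν lam / lam) ∧
    ∀ m : ℝ, Tendsto (fun lam => hc κ ν lam / lam) (𝓝[>] (0 : ℝ)) (𝓝 m) → 2 / 3 < m := by
  intro hα2
  have hα1 : α < 1 := by rw [hα2]; norm_num
  have hdat : ∀ lam, 0 < lam → 0 < Pool.Agent.TH983.hcr κ ν lam ∧
      ∀ h, 0 ≤ h → (0 < freeEnergy κ ν lam h ↔ h < Pool.Agent.TH983.hcr κ ν lam) :=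
    fun lam hlam => Pool.Agent.TH983.hcr_char
      ⟨κ, hκ0, α, cK, hα, hcK, htail, ν, inferInstance, hmean, hvar, hexp, lam, hlam⟩
  have heq : ∀ lam, 0 < lam → hc κ ν lam = Pool.Agent.TH983.hcr κ ν lam := by
    intro lam hlam
    obtain ⟨h1, h2⟩ := hdat lam hlam
    have hub : ∀ h ∈ {h : ℝ | 0 < freeEnergy κ ν lam h}, h ≤ Pool.Agent.TH983.hcr κ ν lam := by
      intro h hh
      rcases lt_or_ge h 0 with h0 | h0
      · linarith
      · exact ((h2 h h0).1 hh).le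
    have hsub : Set.Ico 0 (Pool.Agent.TH983.hcr κ ν lam) ⊆ {h : ℝ | 0 < freeEnergy κ ν lam h} :=
      fun h hh => (h2 h hh.1).2 hh.2
    refine le_antisymm (csSup_le ⟨0, hsub ⟨le_rfl, h1⟩⟩ hub) ?_
    have h3 := csSup_le_csSup ⟨_, hub⟩ (Set.nonempty_Ico.2 h1) hsub
    rwa [csSup_Ico h1] at h3
  have hsan : ∀ lam, 0 < lam →
      (∀ h, 0 ≤ h → Tendsto (feN κ ν lam h) atTop (𝓝 (freeEnergy κ ν lam h))) ∧
      0 < hc κ ν lam ∧ ∀ h, 0 ≤ h → (0 < freeEnergy κ ν lam h ↔ h < hc κ ν lam) := by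
    intro lam hlam
    have h1 := fun h hh => (Cop764.M_fe.J_fe
      ⟨κ, hκ0, α, cK, hα, hcK, htail, ν, inferInstance, hmean, hvar, hexp, lam, hlam⟩ h hh).1
    have h2 := hdat lam hlam
    rw [heq lam hlam]
    exact ⟨h1, h2.1, h2.2⟩
  have hmain : ∃ m : ℝ, 6976 / 10000 < m ∧
      (∀ k, 2 / 3 ≤ k →
        IntegrableOn (fun y => y ^ (-(1 + α)) * (gaussMean α k y ^ (1 + α) - 1)) (Set.Ioi 0) ∧
        (0 ≤ crit α k → k < m)) ∧
      ∀ᶠ lam in 𝓝[>] (0 : ℝ), m ≤ hc κ ν lam / lam := by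
    obtain ⟨m, hm, hev⟩ := Pool.Agent.TH983.slope_lt_one
      ⟨κ, hκ0, α, cK, hα, hcK, htail, ν, inferInstance, hmean, hvar, hexp, 1, one_pos⟩ hα1
    have h1 := (Pool.Agent.TH983.SJ_sup hα hα1).2.1
    have h2 := Pool.Agent.TH983.kx_half
    have h3 : sSup (Pool.Agent.TH983.SJ α) < m := hm
    refine ⟨m, ?_, fun k hk => ?_, ?_⟩
    · rw [hα2] at h1 h3
      linarith
    · have hk' : (1 + α)⁻¹ ≤ k := by
        rw [hα2]
        norm_num
        linarith
      refine ⟨Pool.Agent.TH983.Jf_int hα hα1 hk', fun hc => ?_⟩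
      exact lt_of_le_of_lt
        (le_csSup ⟨1, fun k hk => Pool.Agent.TH983.SJ_bdd hα hα1 k hk⟩ ⟨hk', hc⟩) h3
    · filter_upwards [hev, self_mem_nhdsWithin] with lam h4 hlam
      rw [heq lam hlam]
      exact h4
  refine ⟨hsan, hmain, fun m0 hlim => ?_⟩
  obtain ⟨m, hm, _, hev⟩ := hmain
  have := ge_of_tendsto hlim hev
  norm_num at hm
  linarith

end Pool.Agent.Results.MP_c26281_pr.AboveTwoThirds
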